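import Pool.Agent.Helper32.B4.St

/-!
# B4, module IC: Fubini and Cauchy-Schwarz with tail integrals
-/

set_option autoImplicit false

open Metric Set Filter Topology MeasureTheory
open scoped ComplexConjugate Interval

namespace Pool.Agent.Helper81.B4

open Pool.Agent.Helper32.B4

/-- Locally bounded measurable functions. -/
def LB (g : ℝ → ℝ) : Prop := Measurable g ∧ ∀ R : ℝ, ∃ C : ℝ, ∀ u, |u| ≤ R → |g u| ≤ C

theorem LB.of_bdd {g : ℝ → ℝ} {C : ℝ} (hg : Measurable g) (h : ∀ u, |g u| ≤ C) : LB g :=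
  ⟨hg, fun _ => ⟨C, fun u _ => h u⟩⟩

theorem LB.of_cont {g : ℝ → ℝ} (hg : Continuous g) : LB g := by
  refine ⟨hg.measurable, fun R => ?_⟩
  obtain ⟨C, hC⟩ := (isCompact_Icc (a := -R) (b := R)).exists_bound_of_continuousOn hg.continuousOn
  exact ⟨C, fun u hu => hC u (abs_le.1 hu)⟩

theorem LB.mul {f g : ℝ → ℝ} (hf : LB f) (hg : LB g) : LB (fun u => f u * g u) := by
  refine ⟨hf.1.mul hg.1, fun R => ?_⟩
  obtain ⟨C, hC⟩ := hf.2 R
  obtain ⟨C', hC'⟩ := hg.2 R
  refine ⟨|C| * |C'|, fun u hu => ?_⟩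
  rw [abs_mul]
  exact mul_le_mul ((hC u hu).trans (le_abs_self C)) ((hC' u hu).trans (le_abs_self C')) (abs_nonneg _)
    (abs_nonneg _)

theorem LB.sq {f : ℝ → ℝ} (hf : LB f) : LB (fun u => f u ^ 2) := by
  have h : (fun u => f u ^ 2) = fun u => f u * f u := by funext u; ring
  rw [h]
  exact hf.mul hf

theorem LB.ii {g : ℝ → ℝ} (hg : LB g) (a b : ℝ) : IntervalIntegrable g volume a b := by
  obtain ⟨C, hC⟩ := hg.2 (max |a| |b|)
  refine ii_of_bdd hg.1.aestronglyMeasurable (C := C) (fun u hu => ?_)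
  rw [Real.norm_eq_abs]
  apply hC
  rcases mem_uIoc.1 hu with h | h
  · exact abs_le_max_abs_abs h.1.le h.2
  · rw [max_comm]
    exact abs_le_max_abs_abs h.1.le h.2

theorem LB.tl {g : ℝ → ℝ} (hg : LB g) : LB (tl g) := LB.of_cont (continuous_tl hg.ii)

theorem LB.one : LB (fun _ => (1 : ℝ)) := LB.of_cont continuous_const

theorem LB.id' : LB (fun u => u) := LB.of_cont continuous_id

/-- Fubini for tail integrals. -/
theorem fub {g h : ℝ → ℝ} (hg : LB g) (hh : LB h) {a b : ℝ} (hab : a ≤ b) :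
    (∫ u in a..b, g u * (∫ v in u..b, h v)) = ∫ v in a..b, h v * (∫ u in a..v, g u) := by
  set μ : Measure ℝ := volume.restrict (Ioc a b) with hμ
  set F : ℝ → ℝ → ℝ := fun u v => if u < v then g u * h v else 0 with hF
  have hFm : Measurable (Function.uncurry F) := by
    have : Function.uncurry F = fun p : ℝ × ℝ => if p.1 < p.2 then g p.1 * h p.2 else 0 := rfl
    rw [this]
    refine Measurable.ite (measurableSet_lt measurable_fst measurable_snd) ?_ measurable_const
    exact (hg.1.comp measurable_fst).mul (hh.1.comp measurable_snd)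
  obtain ⟨C, hC⟩ := hg.2 (max |a| |b|)
  obtain ⟨C', hC'⟩ := hh.2 (max |a| |b|)
  have hFi : Integrable (Function.uncurry F) (μ.prod μ) := by
    haveI : IsFiniteMeasure μ := by rw [hμ]; infer_instance
    refine Integrable.of_bound hFm.aestronglyMeasurable (|C| * |C'|) ?_
    rw [hμ, Measure.prod_restrict]
    filter_upwards [ae_restrict_mem (measurableSet_Ioc.prod measurableSet_Ioc)] with p hp
    obtain ⟨h1, h2⟩ := hp
    have e : Function.uncurry F p = if p.1 < p.2 then g p.1 * h p.2 else 0 := rfl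
    rw [e]
    split_ifs
    · rw [norm_mul, Real.norm_eq_abs, Real.norm_eq_abs]
      exact mul_le_mul ((hC _ (abs_le_max_abs_abs h1.1.le h1.2)).trans (le_abs_self C))
        ((hC' _ (abs_le_max_abs_abs h2.1.le h2.2)).trans (le_abs_self C')) (abs_nonneg _) (abs_nonneg _)
    · simp only [norm_zero]
      positivity
  rw [intervalIntegral.integral_of_le hab, intervalIntegral.integral_of_le hab]
  have e1 : ∀ u ∈ Ioc a b, g u * (∫ v in u..b, h v) = ∫ v in Ioc a b, F u v := by
    intro u hu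
    rw [intervalIntegral.integral_of_le hu.2, ← integral_const_mul]
    have e2 : (fun v => F u v) = (Ioi u).indicator (fun v => g u * h v) := by
      funext v
      simp only [hF, indicator, mem_Ioi]
    rw [e2, setIntegral_indicator measurableSet_Ioi]
    have e3 : Ioc a b ∩ Ioi u = Ioc u b := by
      ext v
      simp only [mem_inter_iff, mem_Ioc, mem_Ioi]
      constructor
      · rintro ⟨⟨_, h2⟩, h3⟩
        exact ⟨h3, h2⟩
      · rintro ⟨h1, h2⟩
        exact ⟨⟨hu.1.trans h1, h2⟩, h1⟩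
    rw [e3]
  have e4 : ∀ v ∈ Ioc a b, h v * (∫ u in a..v, g u) = ∫ u in Ioc a b, F u v := by
    intro v hv
    rw [intervalIntegral.integral_of_le hv.1.le, ← integral_const_mul, integral_Ioc_eq_integral_Ioo]
    have e2 : (fun u => F u v) = (Iio v).indicator (fun u => h v * g u) := by
      funext u
      simp only [hF, indicator, mem_Iio]
      rw [mul_comm]
    rw [e2, setIntegral_indicator measurableSet_Iio]
    have e3 : Ioc a b ∩ Iio v = Ioo a v := by
      ext u
      simp only [mem_inter_iff, mem_Ioc, mem_Iio, mem_Ioo]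
      constructor
      · rintro ⟨⟨h1, _⟩, h3⟩
        exact ⟨h1, h3⟩
      · rintro ⟨h1, h2⟩
        exact ⟨⟨h1, (h2.le.trans hv.2)⟩, h2⟩
    rw [e3]
  rw [setIntegral_congr_fun measurableSet_Ioc e1, setIntegral_congr_fun measurableSet_Ioc e4]
  exact integral_integral_swap hFi

/-- Splitting of a tail integral. -/
theorem tl_split {h : ℝ → ℝ} (hh : LB h) (a v : ℝ) : (∫ u in a..v, h u) = tl h a - tl h v := by
  unfold Pool.Agent.Helper32.B4.tl
  rw [← intervalIntegral.integral_add_adjacent_intervals (hh.ii a v) (hh.ii v 1)]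
  ring

/-- The square of a tail integral. -/
theorem tl_sq {h : ℝ → ℝ} (hh : LB h) {a : ℝ} (ha : a ≤ 1) :
    tl h a ^ 2 = 2 * ∫ v in a..1, h v * tl h v := by
  have h1 : (∫ u in a..1, h u * tl h u) = ∫ v in a..1, h v * (∫ u in a..v, h u) := fub hh hh ha
  have h2 : (∫ v in a..1, h v * (∫ u in a..v, h u)) = tl h a * tl h a - ∫ v in a..1, h v * tl h v := by
    have e : (fun v => h v * (∫ u in a..v, h u)) = fun v => tl h a * h v - h v * tl h v := by
      funext v
      rw [tl_split hh]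
      ring
    rw [e, intervalIntegral.integral_sub ((hh.ii a 1).const_mul _) ((hh.mul hh.tl).ii a 1),
      intervalIntegral.integral_const_mul]
    rfl
  rw [h2] at h1
  linarith

/-- Cauchy-Schwarz. -/
theorem csl {f g : ℝ → ℝ} (hf : LB f) (hg : LB g) {a b : ℝ} (hab : a ≤ b) :
    (∫ u in a..b, f u * g u) ^ 2 ≤ (∫ u in a..b, f u ^ 2) * ∫ u in a..b, g u ^ 2 := by
  have key : ∀ t : ℝ, 0 ≤ (∫ u in a..b, f u ^ 2) * (t * t) + (2 * ∫ u in a..b, f u * g u) * t +
      ∫ u in a..b, g u ^ 2 := by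
    intro t
    have h0 : 0 ≤ ∫ u in a..b, (t * f u + g u) ^ 2 :=
      intervalIntegral.integral_nonneg hab (fun u _ => sq_nonneg _)
    have e : (fun u => (t * f u + g u) ^ 2) =
        fun u => (t * t * f u ^ 2 + 2 * t * (f u * g u)) + g u ^ 2 := by
      funext u
      ring
    rw [e, intervalIntegral.integral_add (((hf.sq.ii a b).const_mul _).add (((hf.mul hg).ii a b).const_mul _))
      (hg.sq.ii a b), intervalIntegral.integral_add ((hf.sq.ii a b).const_mul _) (((hf.mul hg).ii a b).const_mul _),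
      intervalIntegral.integral_const_mul, intervalIntegral.integral_const_mul] at h0
    linarith
  have h1 := discrim_le_zero key
  unfold discrim at h1
  nlinarith

theorem lb_nu {θ : ℝ → ℝ} (hθ : Measurable θ) : LB (nu θ) :=
  LB.of_bdd (C := 2) (meas_nu hθ) (fun u => by rw [abs_of_nonneg (nu_nonneg θ u)]; exact nu_le θ u)

theorem lb_sn {θ : ℝ → ℝ} (hθ : Measurable θ) : LB (sn θ) := LB.of_bdd (meas_sn hθ) (abs_sn_le θ)

theorem lb_cs {θ : ℝ → ℝ} (hθ : Measurable θ) : LB (cs θ) := LB.of_bdd (meas_cs hθ) (abs_cs_le θ)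

theorem sn_sq_le (θ : ℝ → ℝ) (u : ℝ) : sn θ u ^ 2 ≤ 2 * nu θ u := by
  rw [sn_sq]
  nlinarith [nu_nonneg θ u]

theorem tl_nu_nonneg (θ : ℝ → ℝ) {u : ℝ} (hu : u ≤ 1) : 0 ≤ tl (nu θ) u :=
  intervalIntegral.integral_nonneg hu (fun v _ => nu_nonneg θ v)

/-- `Y_u² ≤ (1-u) ∫_u^1 s²` -/
theorem tl_sn_sq {θ : ℝ → ℝ} (hθ : Measurable θ) {u : ℝ} (hu : u ≤ 1) :
    tl (sn θ) u ^ 2 ≤ (1 - u) * ∫ v in u..1, sn θ v ^ 2 := by
  have h := csl LB.one (lb_sn hθ) hu
  have e1 : (∫ v in u..1, (1 : ℝ) * sn θ v) = tl (sn θ) u := by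
    unfold Pool.Agent.Helper32.B4.tl
    simp only [one_mul]
  have e2 : (∫ _v in u..1, ((1 : ℝ)) ^ 2) = 1 - u := by
    rw [one_pow, intervalIntegral.integral_const]
    simp
  rw [e1, e2] at h
  exact h

/-- `∫_u^1 s² ≤ 2 D_u` -/
theorem int_sn_sq_le {θ : ℝ → ℝ} (hθ : Measurable θ) {u : ℝ} (hu : u ≤ 1) :
    (∫ v in u..1, sn θ v ^ 2) ≤ 2 * tl (nu θ) u := by
  unfold Pool.Agent.Helper32.B4.tl
  rw [← intervalIntegral.integral_const_mul]
  exact intervalIntegral.integral_mono_on hu ((lb_sn hθ).sq.ii _ _) (((lb_nu hθ).ii _ _).const_mul _)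
    (fun v _ => sn_sq_le θ v)

/-- `W2 = 2 ∫ u ν D_u` -/
theorem fW2_eq {θ : ℝ → ℝ} (hθ : Measurable θ) :
    fW2 θ = 2 * ∫ u in (0:ℝ)..1, u * (nu θ u * tl (nu θ) u) := by
  have hn := lb_nu hθ
  have h1 : fW2 θ = ∫ u in (0:ℝ)..1, 2 * (1 * (∫ v in u..1, nu θ v * tl (nu θ) v)) := by
    unfold fW2
    refine intervalIntegral.integral_congr (fun u hu => ?_)
    rw [uIcc_of_le zero_le_one] at hu
    have := tl_sq hn hu.2
    simp only [one_mul]
    exact this
  rw [h1, intervalIntegral.integral_const_mul, fub LB.one (hn.mul hn.tl) zero_le_one]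
  congr 1
  refine intervalIntegral.integral_congr (fun v _ => ?_)
  simp only [intervalIntegral.integral_const, smul_eq_mul, mul_one, sub_zero]
  ring

/-- `∫ D_u = M` -/
theorem int_tl_nu {θ : ℝ → ℝ} (hθ : Measurable θ) :
    (∫ u in (0:ℝ)..1, tl (nu θ) u) = fM θ := by
  have hn := lb_nu hθ
  have h1 : (∫ u in (0:ℝ)..1, tl (nu θ) u) = ∫ u in (0:ℝ)..1, 1 * (∫ v in u..1, nu θ v) := by
    refine intervalIntegral.integral_congr (fun u _ => ?_)
    simp only [one_mul]
    rfl
  rw [h1, fub LB.one hn zero_le_one]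
  unfold fM
  refine intervalIntegral.integral_congr (fun v _ => ?_)
  simp only [intervalIntegral.integral_const, smul_eq_mul, mul_one, sub_zero]
  ring

/-- MODULE IC. -/
theorem hIC : StIC := by
  intro θ hθ
  have hn := lb_nu hθ
  have hs := lb_sn hθ
  have hc := lb_cs hθ
  have hD := hn.tl
  have hY := hs.tl
  have hId := LB.id'
  -- (4) `B ≤ D² - W2`
  have hB0 : 0 ≤ fB θ := by
    unfold fB
    exact intervalIntegral.integral_nonneg zero_le_one (fun u _ => mul_nonneg (nu_nonneg θ u) (sq_nonneg _))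
  have hND : (∫ u in (0:ℝ)..1, nu θ u * tl (nu θ) u) = fD θ ^ 2 / 2 := by
    have := tl_sq hn (a := 0) zero_le_one
    have e : tl (nu θ) 0 = fD θ := rfl
    rw [e] at this
    linarith
  refine ⟨?_, ?_, ?_, ?_, hB0, ?_⟩
  · -- (1)
    rw [fW2_eq hθ, ← intervalIntegral.integral_const_mul]
    unfold fW
    refine intervalIntegral.integral_mono_on zero_le_one (((hId.mul hs.sq).mul hD).ii _ _)
      (((hId.mul (hn.mul hD)).ii _ _).const_mul _) (fun u hu => ?_)
    have h1 := sn_sq_le θ u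
    have h2 := tl_nu_nonneg θ hu.2
    have h3 : u * sn θ u ^ 2 ≤ u * (2 * nu θ u) := mul_le_mul_of_nonneg_left h1 hu.1
    calc u * sn θ u ^ 2 * tl (nu θ) u ≤ u * (2 * nu θ u) * tl (nu θ) u :=
          mul_le_mul_of_nonneg_right h3 h2
      _ = 2 * (u * (nu θ u * tl (nu θ) u)) := by ring
  · -- (2)
    rw [← int_tl_nu hθ, ← intervalIntegral.integral_const_mul]
    unfold fW2
    refine intervalIntegral.integral_mono_on zero_le_one (hD.sq.ii _ _) ((hD.ii _ _).const_mul _)
      (fun u hu => ?_)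
    have h2 := tl_nu_nonneg θ hu.2
    have h3 : tl (nu θ) u ≤ fD θ := by
      have e := tl_split hn 0 u
      have e2 : 0 ≤ ∫ v in (0:ℝ)..u, nu θ v :=
        intervalIntegral.integral_nonneg hu.1 (fun v _ => nu_nonneg θ v)
      have e3 : tl (nu θ) 0 = fD θ := rfl
      rw [e3] at e
      linarith
    rw [sq]
    exact mul_le_mul_of_nonneg_right h3 h2
  · -- (3)
    have hr : LB (fun u => Real.sqrt (nu θ u)) := by
      refine LB.of_bdd (C := Real.sqrt 2) hn.1.sqrt (fun u => ?_)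
      rw [abs_of_nonneg (Real.sqrt_nonneg _)]
      exact Real.sqrt_le_sqrt (nu_le θ u)
    have h := csl (hr.mul (hId.mul hs)) (hr.mul hY) (zero_le_one (α := ℝ))
    have e1 : (∫ u in (0:ℝ)..1, (Real.sqrt (nu θ u) * (u * sn θ u)) * (Real.sqrt (nu θ u) * tl (sn θ) u)) =
        fI θ := by
      unfold fI
      refine intervalIntegral.integral_congr (fun u _ => ?_)
      have := Real.mul_self_sqrt (nu_nonneg θ u)
      calc (Real.sqrt (nu θ u) * (u * sn θ u)) * (Real.sqrt (nu θ u) * tl (sn θ) u) =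
          (Real.sqrt (nu θ u) * Real.sqrt (nu θ u)) * (u * sn θ u * tl (sn θ) u) := by ring
        _ = u * sn θ u * nu θ u * tl (sn θ) u := by rw [this]; ring
    have e2 : (∫ u in (0:ℝ)..1, (Real.sqrt (nu θ u) * (u * sn θ u)) ^ 2) = fA θ := by
      unfold fA
      refine intervalIntegral.integral_congr (fun u _ => ?_)
      have := Real.sq_sqrt (nu_nonneg θ u)
      calc (Real.sqrt (nu θ u) * (u * sn θ u)) ^ 2 = Real.sqrt (nu θ u) ^ 2 * (u ^ 2 * sn θ u ^ 2) := by ring
        _ = u ^ 2 * sn θ u ^ 2 * nu θ u := by rw [this]; ring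
    have e3 : (∫ u in (0:ℝ)..1, (Real.sqrt (nu θ u) * tl (sn θ) u) ^ 2) = fB θ := by
      unfold fB
      refine intervalIntegral.integral_congr (fun u _ => ?_)
      have := Real.sq_sqrt (nu_nonneg θ u)
      calc (Real.sqrt (nu θ u) * tl (sn θ) u) ^ 2 = Real.sqrt (nu θ u) ^ 2 * tl (sn θ) u ^ 2 := by ring
        _ = nu θ u * tl (sn θ) u ^ 2 := by rw [this]
    rw [e1, e2, e3] at h
    exact h
  · -- (4)
    have h1 : fB θ ≤ ∫ u in (0:ℝ)..1, (2 * (nu θ u * tl (nu θ) u) - 2 * (u * (nu θ u * tl (nu θ) u))) := by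
      unfold fB
      refine intervalIntegral.integral_mono_on zero_le_one ((hn.mul hY.sq).ii _ _)
        ((((hn.mul hD).ii _ _).const_mul _).sub (((hId.mul (hn.mul hD)).ii _ _).const_mul _)) (fun u hu => ?_)
      have h2 := tl_sn_sq hθ hu.2
      have h3 := int_sn_sq_le hθ hu.2
      have h4 : tl (sn θ) u ^ 2 ≤ (1 - u) * (2 * tl (nu θ) u) :=
        h2.trans (mul_le_mul_of_nonneg_left h3 (by linarith [hu.2]))
      calc nu θ u * tl (sn θ) u ^ 2 ≤ nu θ u * ((1 - u) * (2 * tl (nu θ) u)) :=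
            mul_le_mul_of_nonneg_left h4 (nu_nonneg θ u)
        _ = _ := by ring
    rw [intervalIntegral.integral_sub (((hn.mul hD).ii _ _).const_mul _)
      (((hId.mul (hn.mul hD)).ii _ _).const_mul _), intervalIntegral.integral_const_mul,
      intervalIntegral.integral_const_mul, hND, ← fW2_eq hθ] at h1
    linarith
  · -- (5)
    have h := csl hs ((hId.mul hc).mul hY) (zero_le_one (α := ℝ))
    have e1 : (∫ u in (0:ℝ)..1, sn θ u * (u * cs θ u * tl (sn θ) u)) = fV θ := by
      unfold fV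
      refine intervalIntegral.integral_congr (fun u _ => ?_)
      ring
    have hS0 : 0 ≤ fS θ := by
      unfold fS
      exact intervalIntegral.integral_nonneg zero_le_one (fun u _ => sq_nonneg _)
    have h5 : (∫ u in (0:ℝ)..1, (u * cs θ u * tl (sn θ) u) ^ 2) ≤
        ∫ u in (0:ℝ)..1, fS θ * (u ^ 2 * (1 - u)) := by
      refine intervalIntegral.integral_mono_on zero_le_one (((hId.mul hc).mul hY).sq.ii _ _) ?_ (fun u hu => ?_)
      · exact Continuous.intervalIntegrable (by fun_prop) _ _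
      · have h2 := tl_sn_sq hθ hu.2
        have h3 : (∫ v in u..1, sn θ v ^ 2) ≤ fS θ := by
          have e := intervalIntegral.integral_add_adjacent_intervals (hs.sq.ii 0 u) (hs.sq.ii u 1)
          have e2 : 0 ≤ ∫ v in (0:ℝ)..u, sn θ v ^ 2 :=
            intervalIntegral.integral_nonneg hu.1 (fun v _ => sq_nonneg _)
          unfold fS
          rw [← e]
          linarith
        have h4 : cs θ u ^ 2 ≤ 1 := by
          rw [sq_le_one_iff_abs_le_one]
          exact abs_cs_le θ u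
        have h6 : tl (sn θ) u ^ 2 ≤ (1 - u) * fS θ :=
          h2.trans (mul_le_mul_of_nonneg_left h3 (by linarith [hu.2]))
        have h7 : cs θ u ^ 2 * tl (sn θ) u ^ 2 ≤ 1 * ((1 - u) * fS θ) :=
          mul_le_mul h4 h6 (sq_nonneg _) zero_le_one
        calc (u * cs θ u * tl (sn θ) u) ^ 2 = u ^ 2 * (cs θ u ^ 2 * tl (sn θ) u ^ 2) := by ring
          _ ≤ u ^ 2 * (1 * ((1 - u) * fS θ)) := mul_le_mul_of_nonneg_left h7 (sq_nonneg _)
          _ = fS θ * (u ^ 2 * (1 - u)) := by ring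
    have h8 : (∫ u in (0:ℝ)..1, fS θ * (u ^ 2 * (1 - u))) = fS θ * (1 / 12) := by
      rw [intervalIntegral.integral_const_mul]
      congr 1
      have e : (fun u : ℝ => u ^ 2 * (1 - u)) = fun u => u ^ 2 - u ^ 3 := by
        funext u
        ring
      rw [e, intervalIntegral.integral_sub (Continuous.intervalIntegrable (by fun_prop) _ _)
        (Continuous.intervalIntegrable (by fun_prop) _ _), integral_pow, integral_pow]
      norm_num
    rw [e1] at h
    rw [h8] at h5
    have h9 : fV θ ^ 2 ≤ fS θ * (fS θ * (1 / 12)) :=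
      h.trans (mul_le_mul_of_nonneg_left h5 hS0)
    nlinarith

end Pool.Agent.Helper81.B4
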